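import Pool.Agent.Q161.ESG.Stm6

set_option autoImplicit false

/-!
Project ESG (helper161), job XTI: the kernel of `P ↦ x(P) - ϑ` for an irreducible cubic.

If `x - ϑ = η²`, `η = p + q ϑ + r ϑ²`, then `r ≠ 0`, and with `u = q / r` the element `(ϑ - u) η` has the
form `m ϑ + n`, so `(ϑ - u)² (x - ϑ) = (m ϑ + n)²`: the line `Y = m X + n` is tangent to the curve at
`(u, m u + n)` and meets it in a third point with first coordinate `x`.
-/

namespace Pool.Agent.Q182.ESG.XTI

open Polynomial WeierstrassCurve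
open Pool.Agent.Q161.ESG
open scoped Classical

noncomputable section

variable {F L : Type} [Field F] [Field L] [Algebra F L] {A B : F} {ϑ : L}

theorem eqn (x y : F) : (shF A B).toAffine.Equation x y ↔ y ^ 2 = x ^ 3 + A * x + B := by
  rw [Affine.equation_iff]
  change y ^ 2 + 0 * x * y + 0 * y = x ^ 3 + 0 * x ^ 2 + A * x + B ↔ _
  constructor
  · intro h; linear_combination h
  · intro h; linear_combination h

theorem negY (x y : F) : (shF A B).toAffine.negY x y = -y := by
  change -y - 0 * x - 0 = -y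
  ring

theorem mul3 (hϑ : ϑ ^ 3 + algebraMap F L A * ϑ + algebraMap F L B = 0)
    (P Q : (shF A B).toAffine.Point) :
    IsSquare (xt A B ϑ P * xt A B ϑ Q * xt A B ϑ (P + Q)) := by
  rcases P with _ | ⟨x1, y1, h1⟩
  · have : (Affine.Point.zero : (shF A B).toAffine.Point) + Q = Q := zero_add Q
    rw [this]
    exact ⟨xt A B ϑ Q, by simp [xt]⟩
  rcases Q with _ | ⟨x2, y2, h2⟩
  · have : (Affine.Point.some x1 y1 h1 : (shF A B).toAffine.Point) + Affine.Point.zero =
        Affine.Point.some x1 y1 h1 := add_zero _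
    rw [this]
    exact ⟨xt A B ϑ (Affine.Point.some x1 y1 h1), by simp [xt]⟩
  by_cases hxy : x1 = x2 ∧ y1 = (shF A B).toAffine.negY x2 y2
  · rw [Affine.Point.add_of_Y_eq hxy.1 hxy.2]
    refine ⟨algebraMap F L x2 - ϑ, ?_⟩
    change (algebraMap F L x1 - ϑ) * (algebraMap F L x2 - ϑ) * 1 = _
    rw [hxy.1]
    ring
  · rw [Affine.Point.add_some hxy]
    set l := (shF A B).toAffine.slope x1 x2 y1 y2 with hl
    have h3 := Affine.addPolynomial_slope h1.1 h2.1 hxy
    rw [← hl, Affine.addPolynomial_eq] at h3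
    have h4 := congrArg (fun p => aeval ϑ p) h3
    have ha1 : (shF A B).toAffine.a₁ = 0 := rfl
    have ha2 : (shF A B).toAffine.a₂ = 0 := rfl
    have ha3 : (shF A B).toAffine.a₃ = 0 := rfl
    have ha4 : (shF A B).toAffine.a₄ = A := rfl
    have ha6 : (shF A B).toAffine.a₆ = B := rfl
    simp only [ha1, ha2, ha3, ha4, ha6, Cubic.toPoly, map_neg, map_add, map_mul, map_sub, aeval_C,
      aeval_X, map_pow, map_one, map_zero, map_ofNat, one_mul, zero_mul, neg_zero] at h4
    refine ⟨algebraMap F L l * (ϑ - algebraMap F L x1) + algebraMap F L y1, ?_⟩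
    change (algebraMap F L x1 - ϑ) * (algebraMap F L x2 - ϑ) *
      (algebraMap F L ((shF A B).toAffine.addX x1 x2 l) - ϑ) = _
    linear_combination (-1 : L) * h4 - hϑ

theorem exists_basis (hp : Irreducible (X ^ 3 + C A * X + C B : F[X]))
    (hϑ : ϑ ^ 3 + algebraMap F L A * ϑ + algebraMap F L B = 0) (h3 : Module.finrank F L = 3) :
    (∀ η : L, ∃ p q r : F, η = algebraMap F L p + algebraMap F L q * ϑ + algebraMap F L r * ϑ ^ 2) ∧
    ∀ p q r : F, algebraMap F L p + algebraMap F L q * ϑ + algebraMap F L r * ϑ ^ 2 = 0 →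
      p = 0 ∧ q = 0 ∧ r = 0 := by
  have hdeg : (X ^ 3 + C A * X + C B : F[X]).natDegree = 3 := by compute_degree!
  have hmon : (X ^ 3 + C A * X + C B : F[X]).Monic := by monicity!
  have hmin : X ^ 3 + C A * X + C B = minpoly F ϑ := by
    refine minpoly.eq_of_irreducible_of_monic hp ?_ hmon
    simp only [map_add, map_mul, map_pow, aeval_X, aeval_C]
    exact hϑ
  have hm : (minpoly F ϑ).natDegree = 3 := by rw [← hmin, hdeg]
  have li : LinearIndependent F (fun i : Fin 3 => ϑ ^ (i : ℕ)) := by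
    have := linearIndependent_pow (K := F) ϑ
    rw [hm] at this
    exact this
  constructor
  · intro η
    have hsp : Submodule.span F (Set.range fun i : Fin 3 => ϑ ^ (i : ℕ)) = ⊤ :=
      li.span_eq_top_of_card_eq_finrank (by rw [h3]; rfl)
    have hη : η ∈ Submodule.span F (Set.range fun i : Fin 3 => ϑ ^ (i : ℕ)) := by
      rw [hsp]; trivial
    obtain ⟨c, hc⟩ := (Submodule.mem_span_range_iff_exists_fun F).1 hη
    refine ⟨c 0, c 1, c 2, ?_⟩
    rw [← hc, Fin.sum_univ_three]
    simp [Algebra.smul_def]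
  · intro p q r h
    have h0 := Fintype.linearIndependent_iff.1 li ![p, q, r] (by
      rw [Fin.sum_univ_three]
      simp only [Algebra.smul_def]
      simpa using h)
    exact ⟨h0 0, h0 1, h0 2⟩

/-- the kernel -/
theorem halve [CharZero F] (hp : Irreducible (X ^ 3 + C A * X + C B : F[X]))
    (hϑ : ϑ ^ 3 + algebraMap F L A * ϑ + algebraMap F L B = 0) (h3 : Module.finrank F L = 3)
    (P : (shF A B).toAffine.Point) (hP : IsSquare (xt A B ϑ P)) :
    ∃ R : (shF A B).toAffine.Point, P = R + R := by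
  rcases P with _ | ⟨x, y, hn⟩
  · exact ⟨0, (add_zero 0).symm⟩
  obtain ⟨hsp, hli⟩ := exists_basis hp hϑ h3
  obtain ⟨η, hη⟩ := hP
  change algebraMap F L x - ϑ = η * η at hη
  obtain ⟨p, q, r, hpqr⟩ := hsp η
  have hr : r ≠ 0 := by
    rintro rfl
    have h1 := hli (p ^ 2 - x) (2 * p * q + 1) (q ^ 2) (by
      simp only [map_sub, map_add, map_mul, map_pow, map_one, map_ofNat]
      rw [hpqr, map_zero] at hη
      linear_combination -hη)
    have hq : q = 0 := by simpa using h1.2.2
    have h2 := h1.2.1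
    rw [hq] at h2
    simp at h2
  obtain ⟨u, hu⟩ : ∃ u, u = q / r := ⟨_, rfl⟩
  have hur : u * r = q := by rw [hu]; field_simp
  obtain ⟨m, hm⟩ : ∃ m, m = p - u * q - r * A := ⟨_, rfl⟩
  obtain ⟨n, hnn⟩ : ∃ n, n = -u * p - r * B := ⟨_, rfl⟩
  have hline : (ϑ - algebraMap F L u) * η = algebraMap F L m * ϑ + algebraMap F L n := by
    rw [hpqr, hm, hnn, ← hur]
    simp only [map_sub, map_mul, map_neg]
    linear_combination (algebraMap F L r) * hϑ
  have hcoef := hli (m ^ 2 * 0 + (n ^ 2 - (B + u ^ 2 * x))) (2 * m * n - (A - u ^ 2 - 2 * u * x))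
    (m ^ 2 - (x + 2 * u)) (by
      have hsq : (algebraMap F L m * ϑ + algebraMap F L n) ^ 2 =
          (ϑ - algebraMap F L u) ^ 2 * (algebraMap F L x - ϑ) := by
        rw [← hline, hη]
        ring
      simp only [map_sub, map_add, map_mul, map_pow, map_ofNat, map_zero]
      linear_combination hsq - hϑ)
  obtain ⟨hc0, hc1, hc2⟩ := hcoef
  have e0 : n ^ 2 = B + u ^ 2 * x := by linear_combination hc0
  have e1 : 2 * m * n = A - u ^ 2 - 2 * u * x := by linear_combination hc1
  have e2 : m ^ 2 = x + 2 * u := by linear_combination hc2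
  -- the tangent point
  have heq : (m * u + n) ^ 2 = u ^ 3 + A * u + B := by
    linear_combination u ^ 2 * e2 + u * e1 + e0
  have hy0 : m * u + n ≠ 0 := by
    intro h0
    have hroot : IsRoot (X ^ 3 + C A * X + C B : F[X]) u := by
      rw [IsRoot.def]
      simp only [eval_add, eval_mul, eval_pow, eval_X, eval_C]
      rw [← heq, h0]
      ring
    have h1 := degree_eq_one_of_irreducible_of_root hp hroot
    have hdeg : (X ^ 3 + C A * X + C B : F[X]).natDegree = 3 := by compute_degree!
    rw [degree_eq_natDegree hp.ne_zero, hdeg] at h1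
    norm_num at h1
  have h2 : (2 : F) ≠ 0 := two_ne_zero
  have hns : (shF A B).toAffine.Nonsingular u (m * u + n) := by
    rw [Affine.nonsingular_iff]
    refine ⟨(eqn u _).2 heq, Or.inr ?_⟩
    change m * u + n ≠ -(m * u + n) - 0 * u - 0
    intro h
    apply hy0
    have h5 : 2 * (m * u + n) = 0 := by linear_combination h
    exact (mul_eq_zero.1 h5).resolve_left h2
  have hne : m * u + n ≠ (shF A B).toAffine.negY u (m * u + n) := by
    rw [negY]
    intro h
    apply hy0
    have h5 : 2 * (m * u + n) = 0 := by linear_combination h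
    exact (mul_eq_zero.1 h5).resolve_left h2
  have hsl : (shF A B).toAffine.slope u u (m * u + n) (m * u + n) = m := by
    rw [Affine.slope_of_Y_ne rfl hne, negY]
    change (3 * u ^ 2 + 2 * 0 * u + A - 0 * (m * u + n)) / (m * u + n - -(m * u + n)) = m
    have h5 : m * u + n - -(m * u + n) ≠ 0 := by
      intro h
      apply hy0
      have h6 : 2 * (m * u + n) = 0 := by linear_combination h
      exact (mul_eq_zero.1 h6).resolve_left h2
    rw [div_eq_iff h5]
    linear_combination (-2 * u) * e2 - e1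
  have hR : ∃ hn', (Affine.Point.some u (m * u + n) hns : (shF A B).toAffine.Point) +
      Affine.Point.some u (m * u + n) hns = Affine.Point.some x (-(m * x + n)) hn' := by
    have h6 := Affine.Point.add_self_of_Y_ne (h₁ := hns) hne
    have hX : (shF A B).toAffine.addX u u ((shF A B).toAffine.slope u u (m * u + n) (m * u + n)) =
        x := by
      rw [hsl]
      change m ^ 2 + 0 * m - 0 - u - u = x
      linear_combination e2
    have hY : (shF A B).toAffine.addY u u (m * u + n)
        ((shF A B).toAffine.slope u u (m * u + n) (m * u + n)) = -(m * x + n) := by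
      rw [Affine.addY, hX, negY, Affine.negAddY, hX, hsl]
      ring
    rw [h6]
    have h7 : (shF A B).toAffine.Nonsingular x (-(m * x + n)) := by
      have := Affine.nonsingular_add hns hns (fun h => hne h.2)
      rwa [hX, hY] at this
    exact ⟨h7, by simp only [hX, hY]⟩
  obtain ⟨hn', hRR⟩ := hR
  have hyy : y ^ 2 = (m * x + n) ^ 2 := by
    rw [(eqn x y).1 hn.1]
    linear_combination (-x ^ 2) * e2 - x * e1 - e0
  rcases sq_eq_sq_iff_eq_or_eq_neg.1 hyy with h8 | h8
  · refine ⟨-Affine.Point.some u (m * u + n) hns, ?_⟩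
    rw [← neg_add, hRR, Affine.Point.neg_some]
    simp only [negY, neg_neg, h8]
  · refine ⟨Affine.Point.some u (m * u + n) hns, ?_⟩
    rw [hRR]
    simp only [h8]

theorem xt_neg (P : (shF A B).toAffine.Point) : xt A B ϑ (-P) = xt A B ϑ P := by
  rcases P with _ | ⟨x, y, hn⟩
  · rfl
  · rfl

theorem xt_ne (hp : Irreducible (X ^ 3 + C A * X + C B : F[X]))
    (hϑ : ϑ ^ 3 + algebraMap F L A * ϑ + algebraMap F L B = 0) (h3 : Module.finrank F L = 3)
    (P : (shF A B).toAffine.Point) : xt A B ϑ P ≠ 0 := by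
  rcases P with _ | ⟨x, y, hn⟩
  · exact one_ne_zero
  · intro h
    change algebraMap F L x - ϑ = 0 at h
    have := (exists_basis hp hϑ h3).2 x (-1) 0 (by
      simp only [map_neg, map_one, map_zero]
      linear_combination h)
    simpa using this.2.1

/-- Job XTI. -/
theorem xti : S_XTI := by
  intro F L _ _ _ _ A B ϑ hp hϑ h3 P Q hPQ
  have h1 := mul3 hϑ P (-Q)
  rw [xt_neg] at h1
  have hne : xt A B ϑ P * xt A B ϑ Q ≠ 0 :=
    mul_ne_zero (xt_ne hp hϑ h3 P) (xt_ne hp hϑ h3 Q)
  have h2 : IsSquare (xt A B ϑ (P + -Q)) := by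
    have h4 := h1.div hPQ
    rwa [mul_div_cancel_left₀ _ hne] at h4
  obtain ⟨R, hR⟩ := halve hp hϑ h3 (P + -Q) h2
  refine ⟨R, ?_⟩
  rw [← hR]
  abel

end

end Pool.Agent.Q182.ESG.XTI
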